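import Mathlib

namespace Pool.Agent.H.MP_12bcff_ag

theorem leave {α : Type} (f : α → α) (S W : Set α) (hS : Set.InjOn f S) (hW : W.Finite)
    (hf : Set.MapsTo f W W) (x : α) (hx : x ∈ W) (hn : ∀ y ∈ S, f y ≠ x) :
    ∃ n, f^[n] x ∉ S := by
  by_contra h
  push Not at h
  have cancel : ∀ m j, f^[m] x = f^[m + j] x → x = f^[j] x := by
    intro m j
    induction m with
    | zero => simp
    | succ m ih =>
      intro e
      rw [show m + 1 + j = m + j + 1 by ring, Function.iterate_succ_apply',
        Function.iterate_succ_apply'] at e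
      exact ih (hS (h _) (h _) e)
  obtain ⟨m, n, hmn, e⟩ := Set.Finite.exists_lt_map_eq_of_forall_mem
    (f := fun n : ℕ => f^[n] x) (fun n => hf.iterate n hx) hW
  obtain ⟨j, rfl⟩ := Nat.exists_eq_add_of_lt hmn
  have := cancel m (j + 1) e
  rw [Function.iterate_succ_apply'] at this
  exact hn _ (h j) this.symm

theorem box (F : Type) [Field F] [Finite F] (b : AlgebraicClosure F) :
    {y : Fin 2 → AlgebraicClosure F | ∀ i, y i ∈ IntermediateField.adjoin F {b}}.Finite := by
  have hint : IsIntegral F b := Algebra.IsIntegral.isIntegral b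
  have hfd := IntermediateField.adjoin.finiteDimensional hint
  have hfin : Finite (IntermediateField.adjoin F {b}) := Module.finite_of_finite F
  exact Set.Finite.pi' (t := fun _ => (IntermediateField.adjoin F {b} : Set (AlgebraicClosure F)))
    fun _ => hfin

open MvPolynomial in
theorem mem_line (F K : Type) [Field F] [Field K] [Algebra F K] (y : Fin 2 → K) :
    y ∈ zeroLocus K (Ideal.span {(X 0 : MvPolynomial (Fin 2) F)}) ↔ y 0 = 0 := by
  rw [zeroLocus_span]
  simp

end Pool.Agent.H.MP_12bcff_ag
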